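import Mathlib
import Pool.Agent.H.MP_f30c32_an.A

set_option autoImplicit false

open Filter Topology Set Function

namespace Pool.Agent.Results.MP_f30c32_an.Yes

open Pool.Agent.H.MP_38d52f_an Pool.Agent.H.MP_f30c32_an

/-- The Bessel function of the first kind, for `x > 0`. -/
noncomputable def J (ν x : ℝ) : ℝ :=
  ∑' m : ℕ, (-1) ^ m / ((m.factorial : ℝ) * Real.Gamma (m + ν + 1)) * (x / 2) ^ (2 * m + ν)

/-- The Turan ratio `(J_ν^2 - J_{ν-1} J_{ν+1}) / J_ν^2`. -/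
noncomputable def Phi (ν x : ℝ) : ℝ := (J ν x ^ 2 - J (ν - 1) x * J (ν + 1) x) / J ν x ^ 2

theorem J_eq (ν : ℝ) {x : ℝ} (hx : 0 < x) : J ν x = (x / 2) ^ ν * g ν (x ^ 2 / 4) := by
  rw [J, g, S, ← tsum_mul_left]
  refine tsum_congr (fun m => ?_)
  rw [Real.rpow_add (by linarith), show (2 * m : ℝ) = ((2 * m : ℕ) : ℝ) by push_cast; ring,
    Real.rpow_natCast, pow_mul, cg, show -(x ^ 2 / 4) = -1 * (x / 2) ^ 2 by ring, mul_pow]
  ring

variable {ν : ℝ}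

theorem Phi_eq (hν : 0 < ν) {x : ℝ} (hx : 0 < x) : Phi ν x = ph ν (x ^ 2 / 4) := by
  have h2 : 0 < x / 2 := by linarith
  have hp : (x / 2) ^ ν ≠ 0 := (Real.rpow_pos_of_pos h2 _).ne'
  rw [Phi, J_eq ν hx, J_eq _ hx, J_eq _ hx, g_rec hν, Real.rpow_sub_one h2.ne',
    Real.rpow_add_one h2.ne', ph, dl,
    ← mul_div_mul_left _ (g ν (x ^ 2 / 4) ^ 2) (pow_ne_zero 2 hp)]
  congr 1
  · field_simp
  · ring

theorem crit_iff (hν : 0 < ν) {x : ℝ} (hx : 0 < x) (ha : g ν (x ^ 2 / 4) ≠ 0) :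
    deriv (Phi ν) x = 0 ↔ hh ν (x ^ 2 / 4) = 0 := by
  have hu : 0 < x ^ 2 / 4 := by positivity
  have h := (ph_deriv hν hu.ne' ha).comp x ((hasDerivAt_pow 2 x).div_const 4)
  have e : Phi ν =ᶠ[𝓝 x] ph ν ∘ fun y => y ^ 2 / 4 := by
    filter_upwards [Ioi_mem_nhds hx] with y hy using Phi_eq hν hy
  rw [(h.congr_of_eventuallyEq e).deriv, mul_eq_zero, div_eq_zero_iff]
  refine ⟨fun h' => ?_, fun h' => Or.inl (Or.inl h')⟩
  rcases h' with (h' | h') | h'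
  · exact h'
  · exact absurd h' (mul_ne_zero hu.ne' (pow_ne_zero 2 ha))
  · exact absurd h' (by positivity)

theorem result (ν : ℝ) (hν : 0 < ν) (j : ℕ → ℝ) (hj : StrictMono j) (hj0 : j 0 = 0)
    (hz : ∀ x, 0 < x → (J ν x = 0 ↔ ∃ n, 1 ≤ n ∧ x = j n)) :
    ∃ α : ℕ → ℝ,
      (∀ n, 1 ≤ n → α n ∈ Ioo (j n) (j (n + 1)) ∧ DifferentiableAt ℝ (Phi ν) (α n) ∧
        deriv (Phi ν) (α n) = 0 ∧
        ∀ x ∈ Ioo (j n) (j (n + 1)), deriv (Phi ν) x = 0 → x = α n) ∧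
      StrictMono (fun n => if n = 0 then 1 / (ν + 1) else Phi ν (α n)) := by
  have j0 : ∀ n, 0 ≤ j n := fun n => hj0 ▸ hj.monotone (Nat.zero_le n)
  have j1 : ∀ n, 1 ≤ n → 0 < j n := fun n hn => hj0 ▸ hj hn
  set U : ℕ → ℝ := fun n => j n ^ 2 / 4 with hU
  have U0 : ∀ n, 0 ≤ U n := fun n => by simp only [hU]; positivity
  have hmem : ∀ n x, 0 < x → (x ∈ Ioo (j n) (j (n + 1)) ↔ x ^ 2 / 4 ∈ Ioo (U n) (U (n + 1))) := by
    intro n x hx
    simp only [hU, mem_Ioo, div_lt_div_iff_of_pos_right (show (0 : ℝ) < 4 by norm_num)]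
    rw [sq_lt_sq₀ (j0 n) hx.le, sq_lt_sq₀ hx.le (j0 _)]
  have hsq : ∀ u : ℝ, 0 < u → 0 < 2 * Real.sqrt u ∧ (2 * Real.sqrt u) ^ 2 / 4 = u := fun u hu =>
    ⟨by have := Real.sqrt_pos.2 hu; linarith, by rw [mul_pow, Real.sq_sqrt hu.le]; ring⟩
  have hg : ∀ x, 0 < x → (g ν (x ^ 2 / 4) = 0 ↔ ∃ n, 1 ≤ n ∧ x = j n) := by
    intro x hx
    rw [← hz x hx, J_eq ν hx, mul_eq_zero]
    exact ⟨Or.inr, fun h => h.resolve_left (Real.rpow_pos_of_pos (by linarith) _).ne'⟩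
  have hz' : ∀ n, 1 ≤ n → g ν (U n) = 0 := fun n hn => (hg _ (j1 n hn)).2 ⟨n, hn, rfl⟩
  have hne : ∀ n, ∀ u ∈ Ioo (U n) (U (n + 1)), g ν u ≠ 0 := by
    intro n u hu h
    obtain ⟨h1, h2⟩ := hsq u ((U0 n).trans_lt hu.1)
    rw [← h2] at h hu
    obtain ⟨k, _, hk⟩ := (hg _ h1).1 h
    have := (hmem n _ h1).2 hu
    rw [hk] at this
    have a1 := hj.lt_iff_lt.1 this.1
    have a2 := hj.lt_iff_lt.1 this.2
    omega
  have hUlt : ∀ n, U n < U (n + 1) := fun n => by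
    have := j0 n
    have := hj (Nat.lt_succ_self n)
    simp only [hU]; nlinarith
  have ex : ∀ n, ∃ u, 1 ≤ n → u ∈ Ioo (U n) (U (n + 1)) ∧ hh ν u = 0 := by
    intro n
    by_cases hn : 1 ≤ n
    · obtain ⟨u, hu⟩ := crit_ex hν (show 0 < U n by have := j1 n hn; simp only [hU]; positivity)
        (hUlt n) (hz' n hn) (hz' _ (by omega)) (hne n)
      exact ⟨u, fun _ => hu⟩
    · exact ⟨0, fun h => absurd h hn⟩
  choose w hw using ex
  have w0 : ∀ n, 1 ≤ n → 0 < w n := fun n hn => (U0 n).trans_lt (hw n hn).1.1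
  refine ⟨fun n => 2 * Real.sqrt (w n), fun n hn => ?_, strictMono_nat_of_lt_succ (fun n => ?_)⟩
  · obtain ⟨h1, h2⟩ := hsq _ (w0 n hn)
    have ha : g ν ((2 * Real.sqrt (w n)) ^ 2 / 4) ≠ 0 := by rw [h2]; exact hne n _ (hw n hn).1
    refine ⟨(hmem n _ h1).2 (by rw [h2]; exact (hw n hn).1), ?_,
      (crit_iff hν h1 ha).2 (by rw [h2]; exact (hw n hn).2), fun x hx h => ?_⟩
    · have h := (ph_deriv hν (by positivity) ha).comp (2 * Real.sqrt (w n))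
        ((hasDerivAt_pow 2 (2 * Real.sqrt (w n))).div_const 4)
      have e : Phi ν =ᶠ[𝓝 (2 * Real.sqrt (w n))] ph ν ∘ fun y => y ^ 2 / 4 := by
        filter_upwards [Ioi_mem_nhds h1] with y hy using Phi_eq hν hy
      exact (h.congr_of_eventuallyEq e).differentiableAt
    · have hx0 := (j0 n).trans_lt hx.1
      have hu := (hmem n x hx0).1 hx
      have h3 := (crit_iff hν hx0 (hne n _ hu)).1 h
      have h4 : x ^ 2 / 4 = w n := (H_mono hν (U0 n) (hne n)).injOn hu (hw n hn).1 (by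
        simp only [h3, (hw n hn).2, mul_zero])
      rw [← h2] at h4
      exact (pow_left_inj₀ hx0.le h1.le two_ne_zero).1 (by linarith)
  · obtain ⟨y, hy, e⟩ := rolle_ex hν (U0 n) (hUlt n) (by
      rcases Nat.eq_zero_or_pos n with h | h
      · left; simp [hU, h, hj0]
      · exact Or.inr (hz' n h)) (hz' _ (by omega))
    have y0 := (U0 n).trans_lt hy.1
    have h1 := ph_ge y0 (hne n y hy)
    rw [e] at h1
    have hn : 1 ≤ n + 1 := by omega
    have w1 := w0 _ hn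
    have h2 := ph_ge w1 (hne _ _ (hw _ hn).1)
    have h3 : ν ^ 2 / (4 * w (n + 1)) < ν ^ 2 / (4 * y) :=
      div_lt_div_of_pos_left (by positivity) (by positivity) (by linarith [hy.2, (hw _ hn).1.1])
    have h4 : ph ν y < ph ν (w (n + 1)) := by
      have : 0 ≤ (ν * g ν (w (n + 1)) - 2 * w (n + 1) * g (ν + 1) (w (n + 1))) ^ 2 /
        (4 * w (n + 1) * g ν (w (n + 1)) ^ 2) := by positivity
      rw [h1, h2]; simp only [ne_eq, OfNat.ofNat_ne_zero, not_false_eq_true, zero_pow, zero_div]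
      linarith
    rw [if_neg (Nat.succ_ne_zero n), Phi_eq hν (hsq _ w1).1, (hsq _ w1).2]
    refine lt_of_le_of_lt ?_ h4
    split_ifs with h
    · subst h
      have e0 : U 0 = 0 := by simp [hU, hj0]
      have := hne 0
      rw [e0] at this hy
      exact ph_first hν this hy
    · have hn' : 1 ≤ n := Nat.one_le_iff_ne_zero.2 h
      rw [Phi_eq hν (hsq _ (w0 n hn')).1, (hsq _ (w0 n hn')).2]
      exact ph_min hν (U0 n) (hne n) (hw n hn').1 (hw n hn').2 hy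

end Pool.Agent.Results.MP_f30c32_an.Yes
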